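import Pool.Agent.Lib.MP_a3e05c_co.S3.Core
import Pool.Agent.Lib.MP_a3e05c_co.S1.Pure
import Pool.Agent.Lib.MP_a3e05c_co.IRR.Defs

/-!
# EULER, irregular graphs: case C2, a full vertex with at least two non-full neighbours
-/

open Finset

namespace MP_a3e05c_co.KL

variable {V E : Type} [Fintype V] [DecidableEq V] [Fintype E] [DecidableEq E]

/-- the two numbers of `s3_core` -/
structure ScS3 (D : ℕ) : Prop where
  hi : Real.log (FF D 0 ((D : ℝ) / (D - 1))) ≤
    AA D + D * (AA D - phi D (D - 1)) - 2 * (AA D - phi D (D - 1)) +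
    2 * ((-(1 / 2) * Real.log ((D : ℝ) / (2 * (D - 1))) - pp ((D : ℝ) - 1) (D - 1)) / (D - 1))
  hii : Real.log (FF D 0 ((D : ℝ) ^ 2 / (2 * (D - 1)))) ≤ AA D +
    D * ((-(1 / 2) * Real.log ((D : ℝ) / (2 * (D - 1))) - pp ((D : ℝ) - 1) (D - 1)) / (D - 1))

private theorem Case2_phi {d k : ℕ} (hk : k < d) :
    phi d k = Real.log (bb (d / 2)) + pp ((d : ℝ) - 1) k := by
  unfold phi pp ffp
  rw [if_pos hk, Finset.sum_add_distrib, Finset.sum_const, Finset.card_range, nsmul_eq_mul]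
  have h : ((k : ℝ) + 1) ≠ 0 := by positivity
  push_cast
  field_simp

theorem rh_full {d : ℕ} (hd : 2 ≤ d) : rh d d = 1 := by
  unfold rh
  have h : (2 : ℝ) ≤ d := by exact_mod_cast hd
  have h1 : (d : ℝ) - 1 ≠ 0 := by
    have : (0 : ℝ) < (d : ℝ) - 1 := by linarith
    exact this.ne'
  have h2 : (d : ℝ) - d + 1 = 1 := by ring
  rw [h2, mul_one]
  exact div_self h1

/-- a non-full type with `j ≤ D - 1` -/
theorem type_bound {D d j : ℕ} (hD : Even D) (hD2 : 4 ≤ D) (hd : Even d) (h1 : 1 ≤ j) (hj : j < d)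
    (hjD : j + 1 ≤ D) :
    0 ≤ rh d j ∧ rh d j ≤ ((D : ℝ) - 2) / (2 * (D - 1)) ∧ 0 ≤ phi d j - phi d (j - 1) ∧
      -(1 / 2) * Real.log (1 - rh d j) ≤
        pp ((D : ℝ) - 1) (D - 1) + ((D : ℝ) - 1) * (phi d j - phi d (j - 1)) := by
  have hDr : (4 : ℝ) ≤ D := by exact_mod_cast hD2
  have hjd : (j : ℝ) + 1 ≤ d := by exact_mod_cast hj
  have hj1 : (1 : ℝ) ≤ j := by exact_mod_cast h1
  have hjD' : (j : ℝ) + 1 ≤ D := by exact_mod_cast hjD
  have hjs : (j : ℝ) ≤ (d : ℝ) - 1 := by linarith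
  have e1 : phi d j - phi d (j - 1) = hp ((d : ℝ) - 1) j := by
    rw [Case2_phi hj, Case2_phi (by omega : j - 1 < d)]
    unfold hp
    ring
  rw [e1, rh_eq_rr]
  refine ⟨rr_nonneg h1 hjs, ?_, hp_nonneg hjs, ?_⟩
  · refine (rr_anti h1 le_rfl hjs).trans ?_
    unfold rr
    have h2 : (j : ℝ) + 2 - j = 2 := by ring
    rw [h2, div_le_div_iff₀ (by positivity) (by linarith)]
    nlinarith
  · have hn : (D - 1) % 2 = (d - 1) % 2 := by
      obtain ⟨a, ha⟩ := hD
      obtain ⟨b, hb⟩ := hd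
      omega
    have h3 := RR_nonneg (n := D - 1) (n' := d - 1) (k := D - 1) (j := j) hn h1 (by omega) le_rfl
      (by omega)
    have c1 : ((D - 1 : ℕ) : ℝ) = (D : ℝ) - 1 := by
      rw [Nat.cast_sub (by omega), Nat.cast_one]
    have c2 : ((d - 1 : ℕ) : ℝ) = (d : ℝ) - 1 := by
      rw [Nat.cast_sub (by omega), Nat.cast_one]
    unfold RR at h3
    rw [c1, c2] at h3
    have h4 : GG ((D : ℝ) - 1) (((D : ℝ) - 1) * rr ((d : ℝ) - 1) j) =
        -(1 / 2) * Real.log (1 - rr ((d : ℝ) - 1) j) := by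
      unfold GG
      have h5 : (D : ℝ) - 1 ≠ 0 := by
        have : (0 : ℝ) < (D : ℝ) - 1 := by linarith
        exact this.ne'
      rw [mul_div_cancel_left₀ _ h5]
    rw [h4] at h3
    linarith

theorem pp_top_le {D : ℕ} (hD2 : 4 ≤ D) :
    pp ((D : ℝ) - 1) (D - 1) ≤ -(1 / 2) * Real.log ((D : ℝ) / (2 * (D - 1))) := by
  have hDr : (4 : ℝ) ≤ D := by exact_mod_cast hD2
  have c1 : ((D - 1 : ℕ) : ℝ) = (D : ℝ) - 1 := by
    rw [Nat.cast_sub (by omega), Nat.cast_one]
  have h1 : ((D - 1 : ℕ) : ℝ) ≤ (D : ℝ) - 1 := c1.le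
  have h2 := pp_le (s := (D : ℝ) - 1) (k := D - 1) (by omega) h1
  have h3 := gg_nonneg (s := (D : ℝ) - 1) (i := D - 1) h1
  have h4 : gg ((D : ℝ) - 1) (D - 1) = -(1 / 2) * Real.log ((D : ℝ) / (2 * (D - 1))) := by
    unfold gg xx
    rw [c1]
    congr 2
    have h5 : (D : ℝ) - 1 ≠ 0 := by
      have : (0 : ℝ) < (D : ℝ) - 1 := by linarith
      exact this.ne'
    have h6 : (D : ℝ) - 1 + 2 - ((D : ℝ) - 1) = 2 := by ring
    rw [h6]
    field_simp
    ring
  linarith

/-- the deletion of a full vertex `w`: everything except the estimate of the number -/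
theorem S3_step {hd : E → Bool → V} (hs : Simple hd) (hev : ∀ v, Even (deg hd v)) {A : Finset V}
    {D : ℕ} (hT : Top hd A D) {w : V} (hw : w ∈ A) (hwf : Full hd A w) (hwD : deg hd w = D)
    (hanti : ∀ d, Even d → 2 ≤ d → d ≤ D → AA D - phi D (D - 1) ≤ AA d - phi d (d - 1))
    (hnum : ∀ (N : Finset V) (r δ : V → ℝ), N = (nb hd A w).filter (fun u => kk hd A u < deg hd u) →
      r = (fun u => rh (deg hd u) (kk hd A u)) →
      δ = (fun u => phi (deg hd u) (kk hd A u) - phi (deg hd u) (kk hd A u - 1)) →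
      (∀ u ∈ N, 1 ≤ kk hd A u ∧ kk hd A u < deg hd u ∧ kk hd A u + 1 ≤ D) →
      Real.log (FF D 0 (∑ u ∈ N, (1 - r u))) ≤ AA D + D * (AA D - phi D (D - 1)) -
        ∑ u ∈ N, (AA D - phi D (D - 1) - δ u)) (h2D : 2 ≤ D) : Red hd A := by
  have hDr : (2 : ℝ) ≤ D := by exact_mod_cast h2D
  have hDe : Even D := hwD ▸ hev w
  have hDm : D % 2 = 0 := Nat.even_iff.1 hDe
  set N := (nb hd A w).filter fun u => kk hd A u < deg hd u with hN
  set F := (nb hd A w).filter fun u => ¬ kk hd A u < deg hd u with hF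
  have hcard : N.card + F.card = D := by
    rw [hN, hF, Finset.card_filter_add_card_filter_not, card_nb hs, hwf, hwD]
  have hfullF : ∀ u ∈ F, kk hd A u = deg hd u := by
    intro u hu
    have h1 := (mem_filter.1 hu).2
    have h2 := kk_le_deg hs A u
    omega
  have hdeg2 : ∀ u ∈ nb hd A w, 1 ≤ kk hd A u := fun u hu => by
    rw [← card_nb hs]
    exact card_pos.2 ⟨w, mem_nb.2 ⟨hw, (mem_nb.1 hu).2.symm⟩⟩
  have hV : ((kk hd A w : ℕ) : ℝ) - ∑ u ∈ nb hd A w, rh (deg hd u) (kk hd A u) =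
      ∑ u ∈ N, (1 - rh (deg hd u) (kk hd A u)) := by
    have h1 : ∑ u ∈ nb hd A w, rh (deg hd u) (kk hd A u) =
        ∑ u ∈ N, rh (deg hd u) (kk hd A u) + ∑ u ∈ F, rh (deg hd u) (kk hd A u) :=
      (Finset.sum_filter_add_sum_filter_not _ _ _).symm
    have h2 : ∑ u ∈ F, rh (deg hd u) (kk hd A u) = F.card := by
      have h3 : ∀ u ∈ F, rh (deg hd u) (kk hd A u) = 1 := by
        intro u hu
        have h4 := hfullF u hu
        rw [h4]
        apply rh_full
        have h5 := hdeg2 u (mem_filter.1 hu).1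
        obtain ⟨r, hr⟩ := hev u
        omega
      rw [Finset.sum_congr rfl h3, Finset.sum_const, nsmul_eq_mul, mul_one]
    rw [h1, h2, Finset.sum_sub_distrib, Finset.sum_const, nsmul_eq_mul, mul_one, hwf, hwD, ← hcard]
    push_cast
    ring
  have hmem : ∀ u ∈ N, 1 ≤ kk hd A u ∧ kk hd A u < deg hd u ∧ kk hd A u + 1 ≤ D := fun u hu => by
    have h1 := mem_filter.1 hu
    exact ⟨hdeg2 u h1.1, h1.2, hT.lt u (mem_nb.1 h1.1).1 h1.2⟩
  have hr01 : ∀ u ∈ N, 0 ≤ rh (deg hd u) (kk hd A u) ∧ rh (deg hd u) (kk hd A u) ≤ 1 := by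
    intro u hu
    obtain ⟨h1, h2, h3⟩ := hmem u hu
    have h4 : (1 : ℝ) ≤ kk hd A u := by exact_mod_cast h1
    have h5 : (kk hd A u : ℝ) + 1 ≤ deg hd u := by exact_mod_cast h2
    unfold rh
    have h6 : (0 : ℝ) < (deg hd u - 1) * ((deg hd u : ℝ) - kk hd A u + 1) := by
      apply mul_pos <;> linarith
    refine ⟨div_nonneg (by linarith) h6.le, ?_⟩
    rw [div_le_one h6]
    nlinarith
  set v : ℝ := ∑ u ∈ N, (1 - rh (deg hd u) (kk hd A u)) with hv
  have hND : N.card ≤ D := by omega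
  have hv0 : 0 ≤ v := Finset.sum_nonneg fun u hu => by
    have h1 := (hr01 u hu).2
    linarith
  have hvD : v ≤ D := by
    have h1 : v ≤ ∑ _u ∈ N, (1 : ℝ) := Finset.sum_le_sum fun u hu => by
      have := (hr01 u hu).1
      linarith
    rw [Finset.sum_const, nsmul_eq_mul, mul_one] at h1
    have h2 : (N.card : ℝ) ≤ D := by exact_mod_cast hND
    linarith
  have hFM : FM D 0 v = FF D 0 v := by
    unfold FM
    rw [hDm, Nat.cast_zero, max_eq_left hv0]
  have hFpos : 0 < FF D 0 v := by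
    unfold FF
    apply bn_pos'
    · rw [hDm, Nat.cast_zero, sub_zero]
      positivity
    · have h2 : ((D / 2 : ℕ) : ℝ) * 2 = D := by exact_mod_cast (by omega : D / 2 * 2 = D)
      rw [hDm, Nat.cast_zero, sub_zero, mul_comm, h2]
      rw [div_le_one (by linarith)]
      exact hvD
  have hstep := Sl.step hs hev hw (z := Real.log (FF D 0 v)) (by
    rw [hV, hwf, hwD, Nat.sub_self, Real.exp_log hFpos, hFM])
  refine hstep.red ?_ (erase_ne hw)
  rw [hwf, hwD, phi_full]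
  have hcore := hnum N _ _ rfl rfl rfl hmem
  have h1 : gain hd A w =
      ∑ u ∈ N, (phi (deg hd u) (kk hd A u) - phi (deg hd u) (kk hd A u - 1)) +
      ∑ u ∈ F, (phi (deg hd u) (kk hd A u) - phi (deg hd u) (kk hd A u - 1)) :=
    (Finset.sum_filter_add_sum_filter_not _ _ _).symm
  have h2 : F.card • (AA D - phi D (D - 1)) ≤
      ∑ u ∈ F, (phi (deg hd u) (kk hd A u) - phi (deg hd u) (kk hd A u - 1)) := by
    refine Finset.card_nsmul_le_sum _ _ _ fun u hu => ?_
    have h3 := hfullF u hu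
    have h4 := (mem_filter.1 hu).1
    rw [h3, phi_full]
    have h5 := hdeg2 u h4
    obtain ⟨r, hr⟩ := hev u
    refine hanti _ (hev u) (by omega) ?_
    rw [← h3]
    exact hT.le u (mem_nb.1 h4).1
  rw [nsmul_eq_mul] at h2
  have h3 : (F.card : ℝ) = D - N.card := by
    have : ((N.card + F.card : ℕ) : ℝ) = D := by exact_mod_cast hcard
    push_cast at this
    linarith
  rw [h3] at h2
  have h6 : ∑ u ∈ N, (AA D - phi D (D - 1) -
      (phi (deg hd u) (kk hd A u) - phi (deg hd u) (kk hd A u - 1))) =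
      N.card * (AA D - phi D (D - 1)) -
        ∑ u ∈ N, (phi (deg hd u) (kk hd A u) - phi (deg hd u) (kk hd A u - 1)) := by
    rw [Finset.sum_sub_distrib, Finset.sum_const, nsmul_eq_mul]
  have hcore' : Real.log (FF D 0 v) ≤ AA D + D * (AA D - phi D (D - 1)) -
      ∑ u ∈ N, (AA D - phi D (D - 1) -
        (phi (deg hd u) (kk hd A u) - phi (deg hd u) (kk hd A u - 1))) := hcore
  rw [h6] at hcore'
  rw [h1]
  linarith

/-- **C2, at least two non-full neighbours**, `D ≥ 6`. -/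
theorem S3_six {hd : E → Bool → V} (hs : Simple hd) (hev : ∀ v, Even (deg hd v)) {A : Finset V}
    {D : ℕ} (hT : Top hd A D) {w : V} (hw : w ∈ A) (hwf : Full hd A w) (hwD : deg hd w = D)
    (h2 : 2 ≤ ((nb hd A w).filter fun u => kk hd A u < deg hd u).card) (hD : 6 ≤ D)
    (hanti : ∀ d, Even d → 2 ≤ d → d ≤ D → AA D - phi D (D - 1) ≤ AA d - phi d (d - 1))
    (hS : ScS3 D) : Red hd A := by
  have hDe : Even D := hwD ▸ hev w
  obtain ⟨K, hK⟩ : ∃ K, D = 2 * K := by
    obtain ⟨r, hr⟩ := hDe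
    exact ⟨r, by omega⟩
  refine S3_step hs hev hT hw hwf hwD hanti ?_ (by omega)
  intro N r δ hN hr hδ hmem
  have htb : ∀ u ∈ N, _ := fun u hu =>
    type_bound hDe (by omega : 4 ≤ D) (hev u) (hmem u hu).1 (hmem u hu).2.1 (hmem u hu).2.2
  have hND : N.card ≤ D := by
    rw [hN]
    refine (card_le_card (filter_subset _ _)).trans ?_
    rw [card_nb hs, hwf, hwD]
  have hcore := s3_core hK (by omega : 3 ≤ K) (T := -(AA D + D * (AA D - phi D (D - 1))))
    (h := AA D - phi D (D - 1))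
    (p := pp ((D : ℝ) - 1) (D - 1)) (pp_top_le (by omega))
    (by have := hS.hi; linarith) (by have := hS.hii; linarith) N r δ (by rw [hN]; exact h2) hND
    (fun u hu => by rw [hr]; exact (htb u hu).1) (fun u hu => by rw [hr]; exact (htb u hu).2.1)
    (fun u hu => by rw [hδ]; exact (htb u hu).2.2.1)
    (fun u hu => by rw [hr, hδ]; exact (htb u hu).2.2.2)
  linarith

end MP_a3e05c_co.KL
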