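import Pool.Agent.Lib.MP_a3e05c_co.KL.FFG

/-!
# EULER, block S3: logarithmic convexity of `BN` in `σ`

`BN K σ n = E bb (n + N)`, `N ~ Bin(K, σ)`.  Cauchy-Schwarz (conditioning on `K - 2` of the
trials) reduces the logarithmic convexity to three consecutive values of `bb`.
-/

open Finset

namespace MP_a3e05c_co.KL

private theorem Conv_cont (K : ℕ) (σ : ℝ) (n : ℕ) :
    Continuous fun x : ℝ => Real.sin x ^ (2 * n) * (1 - σ * Real.cos x ^ 2) ^ K := by
  fun_prop

/-- one trial more -/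
theorem bn_succ (K : ℕ) (σ : ℝ) (n : ℕ) :
    BN (K + 1) σ n = (1 - σ) * BN K σ n + σ * BN K σ (n + 1) := by
  rw [bn_eq_integral, bn_eq_integral, bn_eq_integral]
  have h1 : ∀ x : ℝ, Real.sin x ^ (2 * n) * (1 - σ * Real.cos x ^ 2) ^ (K + 1) =
      (1 - σ) * (Real.sin x ^ (2 * n) * (1 - σ * Real.cos x ^ 2) ^ K) +
        σ * (Real.sin x ^ (2 * (n + 1)) * (1 - σ * Real.cos x ^ 2) ^ K) := by
    intro x
    have h2 : 1 - σ * Real.cos x ^ 2 = (1 - σ) + σ * Real.sin x ^ 2 := by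
      rw [Real.cos_sq']
      ring
    rw [pow_succ, h2]
    ring
  rw [intervalIntegral.integral_congr fun x _ => h1 x, intervalIntegral.integral_add,
    intervalIntegral.integral_const_mul, intervalIntegral.integral_const_mul]
  · ring
  · exact ((Conv_cont K σ n).const_mul _).intervalIntegrable _ _
  · exact ((Conv_cont K σ (n + 1)).const_mul _).intervalIntegrable _ _

theorem bn_zero (σ : ℝ) (n : ℕ) : BN 0 σ n = bb n := by
  simp [BN]

/-- derivative in `σ` -/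
theorem bn_hasDerivAt (K : ℕ) : ∀ (n : ℕ) (σ : ℝ),
    HasDerivAt (fun σ => BN (K + 1) σ n) (((K : ℝ) + 1) * (BN K σ (n + 1) - BN K σ n)) σ := by
  induction K with
  | zero =>
    intro n σ
    have h : (fun σ => BN (0 + 1) σ n) = fun σ => (1 - σ) * bb n + σ * bb (n + 1) := by
      funext τ
      rw [bn_succ, bn_zero, bn_zero]
    rw [h, bn_zero, bn_zero]
    have h1 : HasDerivAt (fun τ : ℝ => (1 - τ) * bb n) (-1 * bb n) σ := by
      have h2 : HasDerivAt (fun τ : ℝ => 1 - τ) (-1) σ := by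
        simpa using (hasDerivAt_id σ).const_sub 1
      exact h2.mul_const _
    have h3 : HasDerivAt (fun τ : ℝ => τ * bb (n + 1)) (1 * bb (n + 1)) σ :=
      (hasDerivAt_id σ).mul_const _
    refine (h1.add h3).congr_deriv ?_
    push_cast
    ring
  | succ K ih =>
    intro n σ
    have h : (fun σ => BN (K + 1 + 1) σ n) =
        fun σ => (1 - σ) * BN (K + 1) σ n + σ * BN (K + 1) σ (n + 1) := by
      funext τ
      rw [bn_succ]
    rw [h]
    have h2 : HasDerivAt (fun τ : ℝ => 1 - τ) (-1) σ := by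
      simpa using (hasDerivAt_id σ).const_sub 1
    refine ((h2.mul (ih n σ)).add ((hasDerivAt_id σ).mul (ih (n + 1) σ))).congr_deriv ?_
    have e1 := bn_succ K σ n
    have e2 := bn_succ K σ (n + 1)
    simp only [id_eq]
    rw [e1, e2]
    push_cast
    ring

theorem bb_le (n : ℕ) : bb (n + 1) ≤ bb n := by
  have h := bb_succ n
  have h1 := bb_pos n
  have h2 : (0 : ℝ) < 2 * n + 2 := by positivity
  have h3 : bb n * (2 * n + 1) ≤ bb n * (2 * n + 2) := by
    apply mul_le_mul_of_nonneg_left _ h1.le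
    linarith
  rw [← h] at h3
  exact le_of_mul_le_mul_right h3 h2

/-- the three term inequality -/
theorem conv_point (K N : ℕ) (hK : 2 ≤ K) (h : 3 ≤ K ∨ 1 ≤ N) (q : ℝ) (h0 : 0 ≤ q) (h1 : q ≤ 1) :
    (K : ℝ) * ((1 - q) * (bb (N + 1) - bb N) + q * (bb (N + 2) - bb (N + 1))) ^ 2 ≤
      ((K : ℝ) - 1) * ((1 - q) ^ 2 * bb N + 2 * q * (1 - q) * bb (N + 1) + q ^ 2 * bb (N + 2)) *
        (bb (N + 2) - 2 * bb (N + 1) + bb N) := by
  set b := bb N with hb
  have hbpos : 0 < b := bb_pos N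
  have hN : (0 : ℝ) ≤ N := Nat.cast_nonneg N
  have e1 : bb (N + 1) = b * (2 * N + 1) / (2 * N + 2) := by
    rw [eq_div_iff (by positivity), bb_succ]
  have e2 : bb (N + 2) = b * (2 * N + 1) * (2 * N + 3) / ((2 * N + 2) * (2 * N + 4)) := by
    have h3 := bb_succ (N + 1)
    push_cast at h3
    rw [eq_div_iff (by positivity)]
    have h4 : bb (N + 1 + 1) * (2 * N + 4) = bb (N + 1) * (2 * N + 3) := by
      linarith
    have h5 : bb (N + 2) = bb (N + 1 + 1) := rfl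
    have h6 := bb_succ N
    calc bb (N + 2) * ((2 * (N : ℝ) + 2) * (2 * N + 4))
        = (bb (N + 1 + 1) * (2 * N + 4)) * (2 * N + 2) := by rw [h5]; ring
      _ = (bb (N + 1) * (2 * N + 2)) * (2 * N + 3) := by rw [h4]; ring
      _ = b * (2 * N + 1) * (2 * N + 3) := by rw [h6]
  -- `f g - r ^ 2 = b0 b2 - b1 ^ 2`
  set b1 := bb (N + 1)
  set b2 := bb (N + 2)
  have hr : ((1 - q) * (b1 - b) + q * (b2 - b1)) ^ 2 ≤ (b - b1) ^ 2 := by
    have h3 : b1 ≤ b := bb_le N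
    have h4 : b2 ≤ b1 := bb_le (N + 1)
    have h5 : b1 - b2 ≤ b - b1 := by
      have h6 : b - 2 * b1 + b2 = b * (3 / ((2 * N + 2) * (2 * N + 4))) := by
        rw [e1, e2]
        field_simp
        ring
      have h7 : 0 ≤ b * (3 / ((2 * N + 2) * (2 * N + 4))) := by positivity
      linarith
    have h6 : 0 ≤ (1 - q) * (b - b1) + q * (b1 - b2) :=
      add_nonneg (mul_nonneg (by linarith) (by linarith)) (mul_nonneg h0 (by linarith))
    have h7 : (1 - q) * (b - b1) + q * (b1 - b2) ≤ b - b1 := by nlinarith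
    nlinarith
  have hd : (b - b1) ^ 2 ≤ ((K : ℝ) - 1) * (b * b2 - b1 ^ 2) := by
    have h3 : b - b1 = b / (2 * N + 2) := by
      rw [e1]
      field_simp
      ring
    have h4 : b * b2 - b1 ^ 2 = b ^ 2 * (2 * N + 1) * 2 / ((2 * N + 2) ^ 2 * (2 * N + 4)) := by
      rw [e1, e2]
      field_simp
      ring
    rw [h3, h4, div_pow, ← mul_div_assoc, div_le_div_iff₀ (by positivity) (by positivity)]
    have h5 : (2 * (N : ℝ) + 4) ≤ ((K : ℝ) - 1) * ((2 * N + 1) * 2) := by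
      rcases h with h | h
      · have h6 : (3 : ℝ) ≤ K := by exact_mod_cast h
        nlinarith
      · have h6 : (2 : ℝ) ≤ K := by exact_mod_cast hK
        have h7 : (1 : ℝ) ≤ N := by exact_mod_cast h
        nlinarith
    have h6 : 0 ≤ b ^ 2 * (2 * (N : ℝ) + 2) ^ 2 := by positivity
    nlinarith
  have hid : ((1 - q) ^ 2 * b + 2 * q * (1 - q) * b1 + q ^ 2 * b2) * (b2 - 2 * b1 + b) =
      ((1 - q) * (b1 - b) + q * (b2 - b1)) ^ 2 + (b * b2 - b1 ^ 2) := by ring
  have hK1 : (2 : ℝ) ≤ K := by exact_mod_cast hK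
  rw [mul_assoc, hid]
  nlinarith

/-- positivity of `BN` -/
theorem bn_pos' (K : ℕ) (σ : ℝ) (n : ℕ) (h0 : 0 ≤ σ) (h1 : σ ≤ 1) : 0 < BN K σ n := by
  induction K generalizing n with
  | zero => rw [bn_zero]; exact bb_pos n
  | succ K ih =>
    rw [bn_succ]
    rcases eq_or_lt_of_le h0 with h | h
    · rw [← h]
      have := ih n
      rw [← h] at this
      linarith
    · have h2 := mul_pos h (ih (n + 1))
      have h3 := mul_nonneg (sub_nonneg.2 h1) (ih n).le
      linarith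

/-- Cauchy-Schwarz -/
theorem bn_logconv (K n : ℕ) (h : 3 ≤ K + 2 ∨ 1 ≤ n) (σ : ℝ) (h0 : 0 ≤ σ) (h1 : σ ≤ 1) :
    (((K : ℝ) + 2) * (BN (K + 1) σ (n + 1) - BN (K + 1) σ n)) ^ 2 ≤
      BN (K + 2) σ n * (((K : ℝ) + 2) * (((K : ℝ) + 1) *
        ((BN K σ (n + 2) - BN K σ (n + 1)) - (BN K σ (n + 1) - BN K σ n)))) := by
  set w : ℕ → ℝ := fun m => (K.choose m : ℝ) * (1 - σ) ^ (K - m) * σ ^ m with hw
  have hw0 : ∀ m, 0 ≤ w m := fun m => by
    rw [hw]
    have : 0 ≤ 1 - σ := by linarith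
    positivity
  have hBN : ∀ m, BN K σ m = ∑ j ∈ range (K + 1), w j * bb (m + j) := fun m => rfl
  have e1 : BN (K + 1) σ (n + 1) - BN (K + 1) σ n = ∑ j ∈ range (K + 1),
      w j * ((1 - σ) * (bb (n + j + 1) - bb (n + j)) + σ * (bb (n + j + 2) - bb (n + j + 1))) := by
    rw [bn_succ, bn_succ, hBN, hBN, hBN, Finset.mul_sum, Finset.mul_sum, Finset.mul_sum,
      Finset.mul_sum, ← Finset.sum_add_distrib, ← Finset.sum_add_distrib, ← Finset.sum_sub_distrib]
    refine Finset.sum_congr rfl fun j _ => ?_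
    have a1 : n + 1 + j = n + j + 1 := by ring
    have a2 : n + 1 + 1 + j = n + j + 2 := by ring
    rw [a1, a2]
    ring
  have e2 : BN (K + 2) σ n = ∑ j ∈ range (K + 1),
      w j * ((1 - σ) ^ 2 * bb (n + j) + 2 * σ * (1 - σ) * bb (n + j + 1) +
        σ ^ 2 * bb (n + j + 2)) := by
    have a0 : BN (K + 2) σ n = BN (K + 1 + 1) σ n := rfl
    rw [a0, bn_succ, bn_succ, bn_succ, hBN, hBN, hBN]
    have : ∀ x y z : ℝ, (1 - σ) * ((1 - σ) * x + σ * y) + σ * ((1 - σ) * y + σ * z) =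
        (1 - σ) ^ 2 * x + 2 * σ * (1 - σ) * y + σ ^ 2 * z := by intros; ring
    rw [this, Finset.mul_sum, Finset.mul_sum, Finset.mul_sum, ← Finset.sum_add_distrib,
      ← Finset.sum_add_distrib]
    refine Finset.sum_congr rfl fun j _ => ?_
    have a1 : n + 1 + j = n + j + 1 := by ring
    have a2 : n + 1 + 1 + j = n + j + 2 := by ring
    rw [a1, a2]
    ring
  have e3 : (BN K σ (n + 2) - BN K σ (n + 1)) - (BN K σ (n + 1) - BN K σ n) =
      ∑ j ∈ range (K + 1), w j * (bb (n + j + 2) - 2 * bb (n + j + 1) + bb (n + j)) := by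
    rw [hBN, hBN, hBN, ← Finset.sum_sub_distrib, ← Finset.sum_sub_distrib,
      ← Finset.sum_sub_distrib]
    refine Finset.sum_congr rfl fun j _ => ?_
    have a1 : n + 1 + j = n + j + 1 := by ring
    have a2 : n + 2 + j = n + j + 2 := by ring
    rw [a1, a2]
    ring
  have hg : ∀ N : ℕ, 0 ≤ bb (N + 2) - 2 * bb (N + 1) + bb N := by
    intro N
    have h3 := conv_point 3 N (by norm_num) (Or.inl le_rfl) 0 le_rfl zero_le_one
    have h4 := bb_pos N
    by_contra hneg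
    push Not at hneg
    have h5 : (0 : ℝ) ≤ ((3 : ℕ) : ℝ) * ((1 - 0) * (bb (N + 1) - bb N) +
        0 * (bb (N + 2) - bb (N + 1))) ^ 2 := by positivity
    have h6 : (((3 : ℕ) : ℝ) - 1) * ((1 - 0) ^ 2 * bb N + 2 * 0 * (1 - 0) * bb (N + 1) +
        0 ^ 2 * bb (N + 2)) * (bb (N + 2) - 2 * bb (N + 1) + bb N) < 0 := by
      apply mul_neg_of_pos_of_neg _ hneg
      norm_num
      linarith
    linarith
  have hbb : ∀ N : ℕ, 0 < bb N := bb_pos
  have hCS := Finset.sum_sq_le_sum_mul_sum_of_sq_le_mul (range (K + 1))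
    (r := fun j => ((K : ℝ) + 2) * (w j * ((1 - σ) * (bb (n + j + 1) - bb (n + j)) +
      σ * (bb (n + j + 2) - bb (n + j + 1)))))
    (f := fun j => w j * ((1 - σ) ^ 2 * bb (n + j) + 2 * σ * (1 - σ) * bb (n + j + 1) +
        σ ^ 2 * bb (n + j + 2)))
    (g := fun j => ((K : ℝ) + 2) * (((K : ℝ) + 1) *
      (w j * (bb (n + j + 2) - 2 * bb (n + j + 1) + bb (n + j)))))
    (fun j _ => by
      have a := hbb (n + j)
      have b := hbb (n + j + 1)
      have c := hbb (n + j + 2)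
      have d : 0 ≤ 1 - σ := by linarith
      have e := hw0 j
      positivity)
    (fun j _ => by
      have a := hg (n + j)
      have e := hw0 j
      positivity)
    (fun j _ => by
      have hp := conv_point (K + 2) (n + j) (by omega)
        (by rcases h with h | h
            · exact Or.inl h
            · exact Or.inr (by omega)) σ h0 h1
      push_cast at hp
      have e := hw0 j
      have hK2 : (0 : ℝ) ≤ (K : ℝ) + 2 := by positivity
      have e' : 0 ≤ (w j) ^ 2 * ((K : ℝ) + 2) := mul_nonneg (sq_nonneg _) hK2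
      have := mul_le_mul_of_nonneg_left hp e'
      have hk : (K : ℝ) + 2 - 1 = K + 1 := by ring
      rw [hk] at this
      linarith [this])
  rw [e1, e2, e3]
  rw [Finset.mul_sum, Finset.mul_sum, Finset.mul_sum]
  have hgs : ∀ j ∈ range (K + 1), ((K : ℝ) + 2) * (((K : ℝ) + 1) *
      (w j * (bb (n + j + 2) - 2 * bb (n + j + 1) + bb (n + j)))) =
      ((K : ℝ) + 2) * (((K : ℝ) + 1) *
      (w j * (bb (n + j + 2) - 2 * bb (n + j + 1) + bb (n + j)))) := fun _ _ => rfl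
  simpa [Finset.mul_sum] using hCS

/-- logarithmic convexity of `BN` in `σ` -/
theorem bn_log_convex (K n : ℕ) (hK : 2 ≤ K) (h : 3 ≤ K ∨ 1 ≤ n) :
    ConvexOn ℝ (Set.Icc (0 : ℝ) 1) fun σ => Real.log (BN K σ n) := by
  obtain ⟨K, rfl⟩ : ∃ L, K = L + 2 := ⟨K - 2, by omega⟩
  have hpos : ∀ σ ∈ Set.Icc (0 : ℝ) 1, 0 < BN (K + 2) σ n := fun σ hσ =>
    bn_pos' _ _ _ hσ.1 hσ.2
  have hd1 : ∀ σ : ℝ, HasDerivAt (fun σ => BN (K + 2) σ n)
      (((K : ℝ) + 2) * (BN (K + 1) σ (n + 1) - BN (K + 1) σ n)) σ := by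
    intro σ
    refine (bn_hasDerivAt (K + 1) n σ).congr_deriv ?_
    push_cast
    ring
  have hd2 : ∀ σ : ℝ, HasDerivAt
      (fun σ => ((K : ℝ) + 2) * (BN (K + 1) σ (n + 1) - BN (K + 1) σ n))
      (((K : ℝ) + 2) * (((K : ℝ) + 1) *
        ((BN K σ (n + 2) - BN K σ (n + 1)) - (BN K σ (n + 1) - BN K σ n)))) σ := by
    intro σ
    have a := (bn_hasDerivAt K (n + 1) σ).sub (bn_hasDerivAt K n σ)
    refine (a.const_mul ((K : ℝ) + 2)).congr_deriv ?_
    have : n + 1 + 1 = n + 2 := rfl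
    rw [this]
    ring
  refine convexOn_of_hasDerivWithinAt2_nonneg (convex_Icc 0 1)
    (f' := fun σ => (((K : ℝ) + 2) * (BN (K + 1) σ (n + 1) - BN (K + 1) σ n)) / BN (K + 2) σ n)
    (f'' := fun σ => ((((K : ℝ) + 2) * (((K : ℝ) + 1) *
        ((BN K σ (n + 2) - BN K σ (n + 1)) - (BN K σ (n + 1) - BN K σ n)))) * BN (K + 2) σ n -
        (((K : ℝ) + 2) * (BN (K + 1) σ (n + 1) - BN (K + 1) σ n)) *
        (((K : ℝ) + 2) * (BN (K + 1) σ (n + 1) - BN (K + 1) σ n))) / BN (K + 2) σ n ^ 2)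
    ?_ ?_ ?_ ?_
  · intro σ hσ
    exact ((hd1 σ).continuousAt.log (hpos σ hσ).ne').continuousWithinAt
  · intro σ hσ
    rw [interior_Icc] at hσ
    exact ((hd1 σ).log (hpos σ ⟨hσ.1.le, hσ.2.le⟩).ne').hasDerivWithinAt
  · intro σ hσ
    rw [interior_Icc] at hσ
    exact ((hd2 σ).div (hd1 σ) (hpos σ ⟨hσ.1.le, hσ.2.le⟩).ne').hasDerivWithinAt
  · intro σ hσ
    rw [interior_Icc] at hσ
    apply div_nonneg _ (sq_nonneg _)
    have := bn_logconv K n h σ hσ.1.le hσ.2.le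
    nlinarith

end MP_a3e05c_co.KL
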