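import Pool.Agent.Lib.MP_a3e05c_co.S3.Mono

/-!
# EULER, block S3: reduction of the inequality for a full vertex with `m ≥ 2` non-full
neighbours to two numbers
-/

open Finset

namespace MP_a3e05c_co.KL

private theorem Core_FF (K : ℕ) (v : ℝ) : FF (2 * K) 0 v = BN K (v / (2 * K)) 0 := by
  unfold FF
  have h1 : 2 * K / 2 = K := by omega
  have h2 : 2 * K % 2 = 0 := by omega
  rw [h1, h2]
  norm_num

private theorem Core_anti (K : ℕ) {σ τ : ℝ} (h0 : 0 ≤ σ) (h : σ ≤ τ) (h1 : τ ≤ 1) (hK : 0 < K) :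
    Real.log (BN K τ 0) ≤ Real.log (BN K σ 0) := by
  have hK' : (0 : ℝ) < 2 * K := by positivity
  apply Real.log_le_log (bn_pos' K τ 0 (h0.trans h) h1)
  have h3 := FF_antitone (k := 2 * K) (M := 0) (v := σ * (2 * K)) (v' := τ * (2 * K))
    (mul_le_mul_of_nonneg_right h hK'.le) (by
      push_cast
      nlinarith)
  rw [Core_FF, Core_FF, mul_div_cancel_right₀ _ hK'.ne', mul_div_cancel_right₀ _ hK'.ne'] at h3
  exact h3

/-- the lower bound of the potential differences -/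
noncomputable def dlo (D : ℕ) (p r : ℝ) : ℝ :=
  max 0 ((-(1 / 2) * Real.log (1 - r) - p) / ((D : ℝ) - 1))

private theorem Core_convex {D : ℕ} (hD : 2 ≤ D) (p : ℝ) :
    ConvexOn ℝ (Set.Iio (1 : ℝ)) (dlo D p) := by
  have hD1 : (0 : ℝ) < (D : ℝ) - 1 := by
    have : (2 : ℝ) ≤ D := by exact_mod_cast hD
    linarith
  have h1 : ConvexOn ℝ (Set.Iio (1 : ℝ)) fun r : ℝ => -Real.log (1 - r) := by
    have h2 := strictConcaveOn_log_Ioi.concaveOn.neg
    have h3 := h2.comp_affineMap (AffineMap.lineMap (1 : ℝ) 0 : ℝ →ᵃ[ℝ] ℝ)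
    have h4 : (AffineMap.lineMap (1 : ℝ) 0 : ℝ →ᵃ[ℝ] ℝ) ⁻¹' Set.Ioi 0 = Set.Iio (1 : ℝ) := by
      ext x
      simp only [Set.mem_preimage, Set.mem_Ioi, Set.mem_Iio, AffineMap.lineMap_apply, vsub_eq_sub,
        vadd_eq_add, smul_eq_mul]
      constructor <;> intro h <;> linarith
    rw [h4] at h3
    refine h3.congr fun x _ => ?_
    simp only [Function.comp, AffineMap.lineMap_apply, vsub_eq_sub, vadd_eq_add, smul_eq_mul,
      Pi.neg_apply]
    congr 2
    ring
  have h5 : ConvexOn ℝ (Set.Iio (1 : ℝ)) fun r : ℝ =>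
      (-(1 / 2) * Real.log (1 - r) - p) / ((D : ℝ) - 1) := by
    have h6 := (h1.smul (by positivity : (0 : ℝ) ≤ 1 / (2 * ((D : ℝ) - 1)))).add
      (convexOn_const (-p / ((D : ℝ) - 1)) (convex_Iio 1))
    refine h6.congr fun x _ => ?_
    simp only [Pi.add_apply, smul_eq_mul]
    field_simp
    ring
  exact (convexOn_const 0 (convex_Iio 1)).sup h5

/-- **S3, reduction.** `σ = D / (2 (D - 1)) = 1 - ρ(D, D-1)`. -/
theorem s3_core {D K : ℕ} (hDK : D = 2 * K) (hK : 3 ≤ K) {T h p : ℝ}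
    (hpg : p ≤ -(1 / 2) * Real.log ((D : ℝ) / (2 * (D - 1))))
    (hi : Real.log (FF D 0 ((D : ℝ) / (D - 1))) ≤
      -T - 2 * h + 2 * ((-(1 / 2) * Real.log ((D : ℝ) / (2 * (D - 1))) - p) / (D - 1)))
    (hii : Real.log (FF D 0 ((D : ℝ) ^ 2 / (2 * (D - 1)))) ≤
      -T - D * h + D * ((-(1 / 2) * Real.log ((D : ℝ) / (2 * (D - 1))) - p) / (D - 1)))
    {ι : Type} (s : Finset ι) (r δ : ι → ℝ) (hm2 : 2 ≤ s.card) (hmD : s.card ≤ D)
    (hr0 : ∀ i ∈ s, 0 ≤ r i) (hr1 : ∀ i ∈ s, r i ≤ ((D : ℝ) - 2) / (2 * (D - 1)))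
    (hδ0 : ∀ i ∈ s, 0 ≤ δ i)
    (hδ : ∀ i ∈ s, -(1 / 2) * Real.log (1 - r i) ≤ p + ((D : ℝ) - 1) * δ i) :
    Real.log (FF D 0 (∑ i ∈ s, (1 - r i))) ≤ -T - ∑ i ∈ s, (h - δ i) := by
  subst hDK
  have hK3 : (3 : ℝ) ≤ K := by exact_mod_cast hK
  have hKpos : (0 : ℝ) < K := by linarith
  push_cast at hpg hi hii hr1 hδ ⊢
  set sg : ℝ := 2 * (K : ℝ) / (2 * (2 * K - 1)) with hsg
  have hD1 : (0 : ℝ) < 2 * (K : ℝ) - 1 := by linarith
  have hsg0 : 1 / 2 ≤ sg := by
    rw [hsg, div_le_div_iff₀ (by norm_num) (by positivity)]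
    linarith
  have hsg1 : sg ≤ 1 := by
    rw [hsg, div_le_one (by positivity)]
    linarith
  set g : ℝ := -(1 / 2) * Real.log sg with hg
  have hFi : FF (2 * K) 0 (2 * (K : ℝ) / (2 * K - 1)) = BN K (sg / K) 0 := by
    rw [Core_FF]
    congr 1
    rw [hsg]
    field_simp
  have hFii : FF (2 * K) 0 ((2 * (K : ℝ)) ^ 2 / (2 * (2 * K - 1))) = BN K sg 0 := by
    rw [Core_FF]
    congr 1
    rw [hsg]
    field_simp
  rw [hFi] at hi
  rw [hFii] at hii
  -- case A of the two end points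
  have hA2 : ∀ t : ℝ, sg ≤ t → t ≤ 1 → Real.log (BN K (t / K) 0) ≤
      -T - 2 * h + 2 * ((-(1 / 2) * Real.log t - p) / (2 * K - 1)) := by
    intro t ht ht1
    have h1 := bn_mono2 K hK hsg0 ht ht1
    have h2 : 2 * ((-(1 / 2) * Real.log t - p) / (2 * (K : ℝ) - 1)) =
        2 * ((g - p) / (2 * K - 1)) + 1 / (2 * (K : ℝ) - 1) * Real.log sg -
          1 / (2 * (K : ℝ) - 1) * Real.log t := by
      rw [hg]
      field_simp
      ring
    rw [h2]
    linarith
  have hAD : ∀ t : ℝ, sg ≤ t → t ≤ 1 → Real.log (BN K t 0) ≤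
      -T - 2 * K * h + 2 * K * ((-(1 / 2) * Real.log t - p) / (2 * K - 1)) := by
    intro t ht ht1
    have h1 := bn_mono1 K hK hsg0 ht ht1
    have h2 : 2 * (K : ℝ) * ((-(1 / 2) * Real.log t - p) / (2 * (K : ℝ) - 1)) =
        2 * K * ((g - p) / (2 * K - 1)) + (K : ℝ) / (2 * (K : ℝ) - 1) * Real.log sg -
          (K : ℝ) / (2 * (K : ℝ) - 1) * Real.log t := by
      rw [hg]
      field_simp
      ring
    rw [h2]
    linarith
  -- the two end points in general
  have hdlo : ∀ t : ℝ, dlo (2 * K) p (1 - t) =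
      max 0 ((-(1 / 2) * Real.log t - p) / (2 * K - 1)) := by
    intro t
    unfold dlo
    push_cast
    rw [sub_sub_cancel]
  have hE : ∀ t : ℝ, sg ≤ t → t ≤ 1 →
      Real.log (BN K (t / K) 0) ≤ -T - 2 * h + 2 * dlo (2 * K) p (1 - t) ∧
      Real.log (BN K t 0) ≤ -T - 2 * K * h + 2 * K * dlo (2 * K) p (1 - t) := by
    intro t ht ht1
    have ht0 : 0 < t := by linarith
    rw [hdlo]
    rcases le_total p (-(1 / 2) * Real.log t) with hc | hc
    · constructor
      · refine (hA2 t ht ht1).trans ?_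
        have := le_max_right 0 ((-(1 / 2) * Real.log t - p) / (2 * (K : ℝ) - 1))
        linarith
      · refine (hAD t ht ht1).trans ?_
        have := le_max_right 0 ((-(1 / 2) * Real.log t - p) / (2 * (K : ℝ) - 1))
        nlinarith
    · -- the threshold
      set u : ℝ := Real.exp (-(2 * p)) with hu
      have hlu : Real.log u = -(2 * p) := Real.log_exp _
      have hu0 : 0 < u := Real.exp_pos _
      have hut : u ≤ t := by
        rw [← Real.log_le_log_iff hu0 ht0, hlu]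
        linarith
      have hsu : sg ≤ u := by
        rw [← Real.log_le_log_iff (by linarith) hu0, hlu]
        linarith
      have hm0 : 0 ≤ max 0 ((-(1 / 2) * Real.log t - p) / (2 * (K : ℝ) - 1)) := le_max_left _ _
      have hz : (-(1 / 2) * Real.log u - p) / (2 * (K : ℝ) - 1) = 0 := by
        rw [hlu]
        ring
      have a2 := hA2 u hsu (hut.trans ht1)
      have aD := hAD u hsu (hut.trans ht1)
      rw [hz] at a2 aD
      have hK0 : 0 < K := by omega
      have b2 : Real.log (BN K (t / K) 0) ≤ Real.log (BN K (u / K) 0) :=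
        Core_anti K (by positivity) (by gcongr) (by
          rw [div_le_one hKpos]
          linarith) hK0
      have bD : Real.log (BN K t 0) ≤ Real.log (BN K u 0) := Core_anti K hu0.le hut ht1 hK0
      constructor
      · linarith
      · nlinarith
  -- averages
  set m : ℝ := (s.card : ℝ) with hm
  have hm2' : (2 : ℝ) ≤ m := by rw [hm]; exact_mod_cast hm2
  have hmD' : m ≤ 2 * K := by rw [hm]; exact_mod_cast hmD
  have hmpos : 0 < m := by linarith
  set R : ℝ := (∑ i ∈ s, r i) / m with hR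
  have hR0 : 0 ≤ R := div_nonneg (Finset.sum_nonneg hr0) hmpos.le
  have hR1 : R ≤ 1 - sg := by
    have h1 : ∑ i ∈ s, r i ≤ ∑ _i ∈ s, (2 * (K : ℝ) - 2) / (2 * (2 * K - 1)) :=
      Finset.sum_le_sum hr1
    rw [Finset.sum_const, nsmul_eq_mul, ← hm] at h1
    have h2 : (2 * (K : ℝ) - 2) / (2 * (2 * K - 1)) = 1 - sg := by
      rw [hsg]
      field_simp
      ring
    rw [h2] at h1
    rw [hR, div_le_iff₀ hmpos]
    linarith
  have hsum : ∑ i ∈ s, (1 - r i) = m * (1 - R) := by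
    rw [Finset.sum_sub_distrib, Finset.sum_const, nsmul_eq_mul, ← hm, hR]
    field_simp
  have hδsum : m * dlo (2 * K) p R ≤ ∑ i ∈ s, δ i := by
    have hconv := Core_convex (D := 2 * K) (by omega) p
    have h1 := hconv.map_sum_le (t := s) (w := fun _ => 1 / m) (p := r)
      (fun _ _ => by positivity)
      (by rw [Finset.sum_const, nsmul_eq_mul, ← hm]; field_simp)
      (fun i hi => by
        have h2 := hr1 i hi
        have h3 : (2 * (K : ℝ) - 2) / (2 * (2 * K - 1)) < 1 := by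
          rw [div_lt_one (by positivity)]
          linarith
        exact lt_of_le_of_lt h2 h3)
    have h2 : ∑ i ∈ s, (1 / m) • r i = R := by
      rw [hR, Finset.sum_div]
      refine Finset.sum_congr rfl fun i _ => ?_
      rw [smul_eq_mul]
      ring
    rw [h2] at h1
    have h3 : ∑ i ∈ s, (1 / m) • dlo (2 * K) p (r i) ≤ ∑ i ∈ s, (1 / m) * δ i := by
      refine Finset.sum_le_sum fun i hi => ?_
      rw [smul_eq_mul]
      apply mul_le_mul_of_nonneg_left _ (by positivity)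
      unfold dlo
      apply max_le (hδ0 i hi)
      push_cast
      rw [div_le_iff₀ hD1]
      have := hδ i hi
      linarith
    have h4 : dlo (2 * K) p R ≤ (1 / m) * ∑ i ∈ s, δ i := by
      rw [Finset.mul_sum]
      exact h1.trans h3
    have h5 := mul_le_mul_of_nonneg_left h4 hmpos.le
    have h6 : m * (1 / m * ∑ i ∈ s, δ i) = ∑ i ∈ s, δ i := by
      field_simp
    rwa [h6] at h5
  set t : ℝ := 1 - R with ht
  have ht1 : t ≤ 1 := by linarith
  have hts : sg ≤ t := by linarith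
  obtain ⟨E2, ED⟩ := hE t hts ht1
  have hRt : 1 - t = R := by rw [ht]; ring
  rw [hRt] at E2 ED
  have ht0 : 0 < t := by linarith
  have hfin : Real.log (BN K (m * t / (2 * K)) 0) ≤ -T - m * (h - dlo (2 * K) p R) := by
    have hconv := bn_log_convex K 0 (by omega) (Or.inl hK)
    have hK2 : (0 : ℝ) < 2 * K - 2 := by linarith
    have hK1 : (K : ℝ) - 1 ≠ 0 := by
      have : (0 : ℝ) < (K : ℝ) - 1 := by linarith
      exact this.ne'
    have hx : t / (K : ℝ) ∈ Set.Icc (0 : ℝ) 1 :=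
      ⟨by positivity, by rw [div_le_one hKpos]; linarith⟩
    have ha : (0 : ℝ) ≤ (2 * K - m) / (2 * K - 2) := div_nonneg (by linarith) hK2.le
    have hb : (0 : ℝ) ≤ (m - 2) / (2 * K - 2) := div_nonneg (by linarith) hK2.le
    have hab : (2 * (K : ℝ) - m) / (2 * K - 2) + (m - 2) / (2 * K - 2) = 1 := by
      field_simp
      ring
    have h1 := hconv.2 hx (⟨ht0.le, ht1⟩ : t ∈ Set.Icc (0 : ℝ) 1) ha hb hab
    simp only [smul_eq_mul] at h1
    have h2 : (2 * (K : ℝ) - m) / (2 * K - 2) * (t / K) + (m - 2) / (2 * K - 2) * t =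
        m * t / (2 * K) := by
      field_simp
      ring
    rw [h2] at h1
    refine h1.trans ?_
    have h3 := mul_le_mul_of_nonneg_left E2
      (div_nonneg (by linarith) hK2.le : (0 : ℝ) ≤ (2 * K - m) / (2 * K - 2))
    have h4 := mul_le_mul_of_nonneg_left ED
      (div_nonneg (by linarith) hK2.le : (0 : ℝ) ≤ (m - 2) / (2 * K - 2))
    refine (add_le_add h3 h4).trans (le_of_eq ?_)
    field_simp
    ring
  rw [hsum, Core_FF]
  refine hfin.trans ?_
  rw [Finset.sum_sub_distrib, Finset.sum_const, nsmul_eq_mul, ← hm]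
  linarith

end MP_a3e05c_co.KL
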