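import Pool.Agent.Lib.MP_a3e05c_co.S3.Conv

/-!
# EULER, block S3: the logarithmic derivative of `BN K σ 0`
-/

open Finset

namespace MP_a3e05c_co.KL

/-- lower bound for minus the derivative of `BN (L + 1) σ 0` -/
theorem bn_der_ge (L : ℕ) (σ c : ℝ) (h0 : 0 ≤ σ) (h1 : σ ≤ 1) (hc : 1 ≤ c)
    (h : 2 * (1 - σ) ≤ (c * (2 * L + 1) - (L + 1)) * σ) :
    BN (L + 1) σ 0 ≤ (2 * L + 1) * c * σ * (BN L σ 0 - BN L σ 1) := by
  have hρ : 0 ≤ 1 - σ := by linarith
  have e1 : BN (L + 1) σ 0 = (1 - σ) ^ (L + 1) + ∑ m ∈ range (L + 1),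
      ((L + 1).choose (m + 1) : ℝ) * (1 - σ) ^ (L - m) * σ ^ (m + 1) * bb (m + 1) := by
    unfold BN
    rw [Finset.sum_range_succ']
    simp only [Nat.choose_zero_right, Nat.cast_one, one_mul, pow_zero, mul_one, Nat.sub_zero,
      Nat.add_sub_add_right, zero_add, add_zero]
    have : bb 0 = 1 := by simp [bb]
    rw [this, mul_one, add_comm]
  have e2 : BN L σ 0 - BN L σ 1 = ∑ m ∈ range (L + 1),
      (L.choose m : ℝ) * (1 - σ) ^ (L - m) * σ ^ m * (bb (m + 1) / (2 * m + 1)) := by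
    unfold BN
    rw [← Finset.sum_sub_distrib]
    refine Finset.sum_congr rfl fun m _ => ?_
    have h3 : bb (0 + m) - bb (1 + m) = bb (m + 1) / (2 * m + 1) := by
      have h4 := bb_succ m
      rw [zero_add, add_comm 1 m, eq_div_iff (by positivity)]
      linarith
    rw [← h3]
    ring
  rw [e1, e2, Finset.mul_sum]
  have key : ∀ m ∈ range (L + 1), m ≠ 0 →
      ((L + 1).choose (m + 1) : ℝ) * (1 - σ) ^ (L - m) * σ ^ (m + 1) * bb (m + 1) ≤
      (2 * L + 1) * c * σ *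
        ((L.choose m : ℝ) * (1 - σ) ^ (L - m) * σ ^ m * (bb (m + 1) / (2 * m + 1))) := by
    intro m hm _
    have hmL : (m : ℝ) ≤ L := by
      have := Finset.mem_range.1 hm
      exact_mod_cast (by omega : m ≤ L)
    have h3 : ((L + 1).choose (m + 1) : ℝ) = (L.choose m : ℝ) * (L + 1) / (m + 1) := by
      rw [eq_div_iff (by positivity)]
      have := Nat.add_one_mul_choose_eq L m
      have h4 : ((L : ℝ) + 1) * (L.choose m : ℝ) = ((L + 1).choose (m + 1) : ℝ) * ((m : ℝ) + 1) := by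
        exact_mod_cast this
      linarith
    have h5 : ((L : ℝ) + 1) / (m + 1) ≤ (2 * L + 1) * c / (2 * m + 1) := by
      rw [div_le_div_iff₀ (by positivity) (by positivity)]
      have hL0 : (0 : ℝ) ≤ L := Nat.cast_nonneg L
      have hm0 : (0 : ℝ) ≤ m := Nat.cast_nonneg m
      have h6 : (2 * (L : ℝ) + 1) * 1 * (m + 1) ≤ (2 * L + 1) * c * (m + 1) := by
        gcongr
      nlinarith
    have h7 : 0 ≤ (L.choose m : ℝ) * (1 - σ) ^ (L - m) * σ ^ (m + 1) * bb (m + 1) := by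
      have := (bb_pos (m + 1)).le
      positivity
    calc ((L + 1).choose (m + 1) : ℝ) * (1 - σ) ^ (L - m) * σ ^ (m + 1) * bb (m + 1)
        = ((L : ℝ) + 1) / (m + 1) *
          ((L.choose m : ℝ) * (1 - σ) ^ (L - m) * σ ^ (m + 1) * bb (m + 1)) := by
          rw [h3]; ring
      _ ≤ (2 * L + 1) * c / (2 * m + 1) *
          ((L.choose m : ℝ) * (1 - σ) ^ (L - m) * σ ^ (m + 1) * bb (m + 1)) :=
          mul_le_mul_of_nonneg_right h5 h7
      _ = _ := by rw [pow_succ]; ring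
  rw [Finset.sum_range_succ', Finset.sum_range_succ', ← add_assoc]
  have hb1 : bb 1 = 1 / 2 := by simp [bb]; norm_num [Nat.centralBinom]
  have hz : (1 - σ) ^ (L + 1) + ((L + 1).choose (0 + 1) : ℝ) * (1 - σ) ^ (L - 0) * σ ^ (0 + 1) *
      bb (0 + 1) ≤ (2 * L + 1) * c * σ *
        ((L.choose 0 : ℝ) * (1 - σ) ^ (L - 0) * σ ^ 0 * (bb (0 + 1) / (2 * (0 : ℕ) + 1))) := by
    simp only [zero_add, Nat.choose_one_right, Nat.sub_zero, pow_one, Nat.choose_zero_right,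
      Nat.cast_one, one_mul, pow_zero, mul_one, Nat.cast_zero, mul_zero, hb1]
    push_cast
    have hpow : 0 ≤ (1 - σ) ^ L := pow_nonneg hρ L
    have := mul_le_mul_of_nonneg_right h hpow
    rw [pow_succ]
    nlinarith
  have hs : ∑ k ∈ range L, ((L + 1).choose (k + 1 + 1) : ℝ) * (1 - σ) ^ (L - (k + 1)) *
      σ ^ (k + 1 + 1) * bb (k + 1 + 1) ≤ ∑ k ∈ range L, (2 * L + 1) * c * σ *
        ((L.choose (k + 1) : ℝ) * (1 - σ) ^ (L - (k + 1)) * σ ^ (k + 1) *
          (bb (k + 1 + 1) / (2 * ((k + 1 : ℕ) : ℝ) + 1))) := by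
    refine Finset.sum_le_sum fun k hk => ?_
    exact key (k + 1) (Finset.mem_range.2 (by have := Finset.mem_range.1 hk; omega)) (by omega)
  linarith

private theorem Mono_der (L : ℕ) (σ : ℝ) (h0 : 0 ≤ σ) (h1 : σ ≤ 1) :
    HasDerivAt (fun σ => Real.log (BN (L + 1) σ 0))
      (-(((L : ℝ) + 1) * (BN L σ 0 - BN L σ 1)) / BN (L + 1) σ 0) σ := by
  have h := (bn_hasDerivAt L 0 σ).log (bn_pos' (L + 1) σ 0 h0 h1).ne'
  refine h.congr_deriv ?_
  rw [zero_add]
  ring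

/-- `log BN K σ 0 + K/(2K-1) log σ` is antitone on `[1/2, 1]` -/
theorem bn_mono1 (K : ℕ) (hK : 3 ≤ K) {σ τ : ℝ} (h0 : 1 / 2 ≤ σ) (h : σ ≤ τ) (h1 : τ ≤ 1) :
    Real.log (BN K τ 0) + (K : ℝ) / (2 * K - 1) * Real.log τ ≤
      Real.log (BN K σ 0) + (K : ℝ) / (2 * K - 1) * Real.log σ := by
  obtain ⟨L, rfl⟩ : ∃ L, K = L + 1 := ⟨K - 1, by omega⟩
  have hL : (2 : ℝ) ≤ L := by exact_mod_cast (by omega : 2 ≤ L)
  set a : ℝ := ((L + 1 : ℕ) : ℝ) / (2 * ((L + 1 : ℕ) : ℝ) - 1) with ha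
  have ha' : a = ((L : ℝ) + 1) / (2 * L + 1) := by
    rw [ha]
    push_cast
    congr 1
    ring
  have hanti : AntitoneOn (fun x => Real.log (BN (L + 1) x 0) + a * Real.log x)
      (Set.Icc (1 / 2 : ℝ) 1) := by
    have hder : ∀ x ∈ Set.Icc (1 / 2 : ℝ) 1, HasDerivAt
        (fun x => Real.log (BN (L + 1) x 0) + a * Real.log x)
        (-(((L : ℝ) + 1) * (BN L x 0 - BN L x 1)) / BN (L + 1) x 0 + a * x⁻¹) x := by
      intro x hx
      have hx0 : 0 < x := by linarith [hx.1]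
      exact (Mono_der L x hx0.le hx.2).add ((Real.hasDerivAt_log hx0.ne').const_mul a)
    refine antitoneOn_of_deriv_nonpos (convex_Icc _ _)
      (fun x hx => (hder x hx).continuousAt.continuousWithinAt)
      (fun x hx => ?_) (fun x hx => ?_)
    · rw [interior_Icc] at hx
      exact (hder x ⟨hx.1.le, hx.2.le⟩).differentiableAt.differentiableWithinAt
    · rw [interior_Icc] at hx
      have hx' : x ∈ Set.Icc (1 / 2 : ℝ) 1 := ⟨hx.1.le, hx.2.le⟩
      rw [(hder x hx').deriv]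
      have hx0 : 0 < x := by linarith [hx.1]
      have hb := bn_pos' (L + 1) x 0 hx0.le hx.2.le
      have hge := bn_der_ge L x 1 hx0.le hx.2.le le_rfl (by nlinarith [hx.1, hx.2])
      have h2 : a * x⁻¹ ≤ ((L : ℝ) + 1) * (BN L x 0 - BN L x 1) / BN (L + 1) x 0 := by
        rw [ha', le_div_iff₀ hb]
        have h3 : ((L : ℝ) + 1) / (2 * L + 1) * x⁻¹ * BN (L + 1) x 0 ≤
            ((L : ℝ) + 1) / (2 * L + 1) * x⁻¹ * ((2 * L + 1) * 1 * x * (BN L x 0 - BN L x 1)) := by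
          apply mul_le_mul_of_nonneg_left hge
          positivity
        refine h3.trans (le_of_eq ?_)
        field_simp
      have h4 : -(((L : ℝ) + 1) * (BN L x 0 - BN L x 1)) / BN (L + 1) x 0 =
          -(((L : ℝ) + 1) * (BN L x 0 - BN L x 1) / BN (L + 1) x 0) := by
        rw [neg_div]
      rw [h4]
      linarith
  exact hanti ⟨h0, h.trans h1⟩ ⟨h0.trans h, h1⟩ h

/-- `log BN K (s/K) 0 + 1/(2K-1) log s` is antitone on `[1/2, 1]` -/
theorem bn_mono2 (K : ℕ) (hK : 3 ≤ K) {σ τ : ℝ} (h0 : 1 / 2 ≤ σ) (h : σ ≤ τ) (h1 : τ ≤ 1) :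
    Real.log (BN K (τ / K) 0) + 1 / (2 * (K : ℝ) - 1) * Real.log τ ≤
      Real.log (BN K (σ / K) 0) + 1 / (2 * (K : ℝ) - 1) * Real.log σ := by
  obtain ⟨L, rfl⟩ : ∃ L, K = L + 1 := ⟨K - 1, by omega⟩
  have hL : (2 : ℝ) ≤ L := by exact_mod_cast (by omega : 2 ≤ L)
  have hc : ((L + 1 : ℕ) : ℝ) = (L : ℝ) + 1 := by push_cast; ring
  rw [hc]
  set a : ℝ := 1 / (2 * ((L : ℝ) + 1) - 1) with ha
  have ha' : a = 1 / (2 * L + 1) := by
    rw [ha]
    congr 1
    ring
  have hL1 : (0 : ℝ) < (L : ℝ) + 1 := by linarith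
  have hanti : AntitoneOn (fun x => Real.log (BN (L + 1) (x / ((L : ℝ) + 1)) 0) + a * Real.log x)
      (Set.Icc (1 / 2 : ℝ) 1) := by
    have hder : ∀ x ∈ Set.Icc (1 / 2 : ℝ) 1, HasDerivAt
        (fun x => Real.log (BN (L + 1) (x / ((L : ℝ) + 1)) 0) + a * Real.log x)
        (-(((L : ℝ) + 1) * (BN L (x / ((L : ℝ) + 1)) 0 - BN L (x / ((L : ℝ) + 1)) 1)) /
          BN (L + 1) (x / ((L : ℝ) + 1)) 0 * (1 / ((L : ℝ) + 1)) + a * x⁻¹) x := by
      intro x hx
      have hx0 : 0 < x := by linarith [hx.1]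
      have hy0 : 0 ≤ x / ((L : ℝ) + 1) := by positivity
      have hy1 : x / ((L : ℝ) + 1) ≤ 1 := by
        rw [div_le_one hL1]
        linarith [hx.2]
      have hin : HasDerivAt (fun x : ℝ => x / ((L : ℝ) + 1)) (1 / ((L : ℝ) + 1)) x :=
        (hasDerivAt_id x).div_const _
      have h2 := (Mono_der L (x / ((L : ℝ) + 1)) hy0 hy1).comp x hin
      exact h2.add ((Real.hasDerivAt_log hx0.ne').const_mul a)
    refine antitoneOn_of_deriv_nonpos (convex_Icc _ _)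
      (fun x hx => (hder x hx).continuousAt.continuousWithinAt)
      (fun x hx => ?_) (fun x hx => ?_)
    · rw [interior_Icc] at hx
      exact (hder x ⟨hx.1.le, hx.2.le⟩).differentiableAt.differentiableWithinAt
    · rw [interior_Icc] at hx
      have hx' : x ∈ Set.Icc (1 / 2 : ℝ) 1 := ⟨hx.1.le, hx.2.le⟩
      rw [(hder x hx').deriv]
      have hx0 : 0 < x := by linarith [hx.1]
      set y := x / ((L : ℝ) + 1) with hy
      have hyx : y * ((L : ℝ) + 1) = x := by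
        rw [hy]
        field_simp
      have hy0 : 0 ≤ y := by positivity
      have hy1 : y ≤ 1 := by
        rw [hy, div_le_one hL1]
        linarith [hx.2]
      have hb := bn_pos' (L + 1) y 0 hy0 hy1
      have hge := bn_der_ge L y ((L : ℝ) + 1) hy0 hy1 (by linarith) (by
        have h3 : (((L : ℝ) + 1) * (2 * L + 1) - (L + 1)) * y = 2 * L * x := by
          rw [← hyx]; ring
        rw [h3]
        nlinarith [hx.1, hx.2])
      have h2 : a * x⁻¹ ≤ ((L : ℝ) + 1) * (BN L y 0 - BN L y 1) / BN (L + 1) y 0 *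
          (1 / ((L : ℝ) + 1)) := by
        have h5 : ((L : ℝ) + 1) * (BN L y 0 - BN L y 1) / BN (L + 1) y 0 * (1 / ((L : ℝ) + 1)) =
            (BN L y 0 - BN L y 1) / BN (L + 1) y 0 := by
          field_simp
        rw [h5, ha', le_div_iff₀ hb]
        have h3 : 1 / (2 * (L : ℝ) + 1) * x⁻¹ * BN (L + 1) y 0 ≤
            1 / (2 * L + 1) * x⁻¹ * ((2 * L + 1) * ((L : ℝ) + 1) * y * (BN L y 0 - BN L y 1)) := by
          apply mul_le_mul_of_nonneg_left hge
          positivity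
        refine h3.trans (le_of_eq ?_)
        have h6 : (2 * (L : ℝ) + 1) * ((L : ℝ) + 1) * y * (BN L y 0 - BN L y 1) =
            (2 * L + 1) * x * (BN L y 0 - BN L y 1) := by
          rw [← hyx]; ring
        rw [h6]
        field_simp
      have h4 : -(((L : ℝ) + 1) * (BN L y 0 - BN L y 1)) / BN (L + 1) y 0 * (1 / ((L : ℝ) + 1)) =
          -(((L : ℝ) + 1) * (BN L y 0 - BN L y 1) / BN (L + 1) y 0 * (1 / ((L : ℝ) + 1))) := by
        rw [neg_div, neg_mul]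
      rw [h4]
      linarith
  exact hanti ⟨h0, h.trans h1⟩ ⟨h0.trans h, h1⟩ h

end MP_a3e05c_co.KL
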